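import Pool.Agent.Helper99.BK.Stmts

set_option autoImplicit false

/-! # GRa: the size function of a totally real cubic field -/

namespace Pool.Helper99.BK

open NumberField

theorem gra_gel {K : Type} [Field K] [NumberField K] (π : 𝓞 K) (ε1 ε2 : (𝓞 K)ˣ)
    (p : Fin 3 → ℤ) : gel π ε1 ε2 p =
      (π : K) ^ (p 0) * (((ε1 ^ (p 1) * ε2 ^ (p 2) : (𝓞 K)ˣ) : 𝓞 K) : K) := by
  unfold gel
  have h1 : (((ε1 ^ (p 1) * ε2 ^ (p 2) : (𝓞 K)ˣ) : 𝓞 K) : K) =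
      ((ε1 : 𝓞 K) : K) ^ (p 1) * ((ε2 : 𝓞 K) : K) ^ (p 2) := by
    have h2 := NumberField.Units.coe_mul (ε1 ^ (p 1)) (ε2 ^ (p 2))
    have h3 := NumberField.Units.coe_zpow ε1 (p 1)
    have h4 := NumberField.Units.coe_zpow ε2 (p 2)
    exact h2.trans (by rw [h3, h4])
  rw [h1, mul_assoc]

theorem gra_ne {K : Type} [Field K] [NumberField K] (τ : K →+* ℂ) (u : (𝓞 K)ˣ) :
    τ ((u : 𝓞 K) : K) ≠ 0 := by
  rw [map_ne_zero]
  exact NumberField.Units.coe_ne_zero u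

theorem gra_pi {K : Type} [Field K] [NumberField K] (τ : K →+* ℂ) (π : 𝓞 K) (hπ : π ≠ 0) :
    τ (π : K) ≠ 0 := by
  rw [map_ne_zero]
  exact fun h => hπ (NumberField.RingOfIntegers.coe_eq_zero_iff.mp h)

theorem gra_log {K : Type} [Field K] [NumberField K] (τ : K →+* ℂ) (π : 𝓞 K) (hπ : π ≠ 0)
    (ε1 ε2 : (𝓞 K)ˣ) (p : Fin 3 → ℤ) :
    Real.log ‖τ (gel π ε1 ε2 p)‖ = (p 0 : ℝ) * Real.log ‖τ (π : K)‖ +
      Real.log ‖τ (((ε1 ^ (p 1) * ε2 ^ (p 2) : (𝓞 K)ˣ) : 𝓞 K) : K)‖ := by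
  have h1 : ‖τ (π : K)‖ ≠ 0 := norm_ne_zero_iff.mpr (gra_pi τ π hπ)
  have h2 : ‖τ (((ε1 ^ (p 1) * ε2 ^ (p 2) : (𝓞 K)ˣ) : 𝓞 K) : K)‖ ≠ 0 :=
    norm_ne_zero_iff.mpr (gra_ne τ _)
  rw [gra_gel, map_mul, map_zpow₀, norm_mul, norm_zpow, Real.log_mul (zpow_ne_zero _ h1) h2,
    Real.log_zpow]

theorem gra_le {K : Type} [Field K] [NumberField K] (σ : Fin 3 → (K →+* ℂ)) (π : 𝓞 K)
    (ε1 ε2 : (𝓞 K)ˣ) (A : ℝ) (hA : 1 ≤ A) (lam : Fin 3 → ℂ) (p : Fin 3 → ℤ) :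
    |(p 0 : ℝ)| ≤ nrm σ π ε1 ε2 A lam p ∧
      ∀ i, 4 * |Real.log ‖σ i (gel π ε1 ε2 p)‖| ≤ nrm σ π ε1 ε2 A lam p := by
  have h1 : 0 ≤ ‖∑ i, ((p i : ℤ) : ℂ) * lam i‖ := norm_nonneg _
  have h2 : 0 ≤ ∑ i, |Real.log ‖σ i (gel π ε1 ε2 p)‖| :=
    Finset.sum_nonneg (fun i _ => abs_nonneg _)
  have h3 : |(p 0 : ℝ)| ≤ A * |(p 0 : ℝ)| := by
    have := abs_nonneg (p 0 : ℝ)
    nlinarith
  have h4 := abs_nonneg (p 0 : ℝ)
  refine ⟨?_, fun i => ?_⟩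
  · unfold nrm
    linarith
  · have h5 : |Real.log ‖σ i (gel π ε1 ε2 p)‖| ≤ ∑ i, |Real.log ‖σ i (gel π ε1 ε2 p)‖| :=
      Finset.single_le_sum (f := fun i => |Real.log ‖σ i (gel π ε1 ε2 p)‖|)
        (fun i _ => abs_nonneg _) (Finset.mem_univ i)
    unfold nrm
    linarith

theorem gra_count (s : Set (Fin 3 → ℤ)) (ρ : ℝ) (hρ : 0 ≤ ρ) (h1 : ∀ p ∈ s, |(p 0 : ℝ)| ≤ ρ)
    (h2 : ∀ p ∈ s, ∀ q ∈ s, p 0 = q 0 → p = q) : (s.ncard : ℝ) ≤ 4 * (ρ + 1) ^ 2 := by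
  have h3 : s.ncard ≤ (Finset.Icc (-⌊ρ⌋) ⌊ρ⌋ : Finset ℤ).card := by
    rw [← Set.ncard_coe_finset]
    refine Set.ncard_le_ncard_of_injOn (fun p => p 0) ?_ ?_ (Finset.finite_toSet _)
    · intro p hp
      have h4 := abs_le.mp (h1 p hp)
      simp only [Finset.coe_Icc, Set.mem_Icc]
      refine ⟨?_, Int.le_floor.mpr h4.2⟩
      have h5 : -(p 0) ≤ ⌊ρ⌋ := by
        apply Int.le_floor.mpr
        push_cast
        linarith [h4.1]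
      linarith
    · intro p hp q hq hpq
      exact h2 p hp q hq hpq
  have h6 : (0 : ℤ) ≤ ⌊ρ⌋ := Int.floor_nonneg.mpr hρ
  have h7 : (((Finset.Icc (-⌊ρ⌋) ⌊ρ⌋ : Finset ℤ).card : ℕ) : ℝ) = 2 * (⌊ρ⌋ : ℝ) + 1 := by
    rw [Int.card_Icc]
    have h8 : (((⌊ρ⌋ + 1 - -⌊ρ⌋).toNat : ℕ) : ℤ) = 2 * ⌊ρ⌋ + 1 := by
      rw [Int.toNat_of_nonneg (by linarith)]
      ring
    have h9 : ((((⌊ρ⌋ + 1 - -⌊ρ⌋).toNat : ℕ) : ℤ) : ℝ) = ((2 * ⌊ρ⌋ + 1 : ℤ) : ℝ) := by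
      rw [h8]
    push_cast at h9
    exact h9
  have h10 : (s.ncard : ℝ) ≤ 2 * (⌊ρ⌋ : ℝ) + 1 := by
    rw [← h7]
    exact_mod_cast h3
  have h11 : (⌊ρ⌋ : ℝ) ≤ ρ := Int.floor_le ρ
  nlinarith

theorem st_GRa (hKER : ST_KER) (hEMB3 : ST_EMB3) : ST_GRa := by
  intro c hc
  refine ⟨min 1 (4 * c), 1 + 1 / c, lt_min one_pos (by linarith), ?_, ?_⟩
  · have : 0 < 1 / c := by positivity
    linarith
  intro K _ _ hK σ hσ π hπ ε1 ε2 hUR θ lam A S hθ hA hS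
  obtain ⟨hE, -, -, -⟩ := hEMB3 K hK σ hσ
  have hS0 : 0 ≤ S := le_trans (abs_nonneg _) (hS 0)
  have hUR2 : ∀ m n : ℤ, ∃ i, c * max |(m : ℝ)| |(n : ℝ)| ≤
      |Real.log ‖σ i (((ε1 ^ m * ε2 ^ n : (𝓞 K)ˣ) : 𝓞 K) : K)‖| := by
    intro m n
    obtain ⟨τ, hτ⟩ := hUR.2 m n
    obtain ⟨i, rfl⟩ := hE τ
    exact ⟨i, hτ⟩
  refine ⟨?_, ?_, ?_⟩
  · intro p hp
    by_cases h0 : p 0 = 0
    · -- the unit part is nontrivial
      refine le_trans (min_le_right _ _) ?_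
      obtain ⟨i, hi⟩ := hUR2 (p 1) (p 2)
      have h1 : 1 ≤ max |(p 1 : ℝ)| |(p 2 : ℝ)| := by
        by_contra hcon
        push Not at hcon
        rw [max_lt_iff] at hcon
        have e1 : p 1 = 0 := by
          have : |p 1| < 1 := by exact_mod_cast hcon.1
          exact Int.abs_lt_one_iff.mp this
        have e2 : p 2 = 0 := by
          have : |p 2| < 1 := by exact_mod_cast hcon.2
          exact Int.abs_lt_one_iff.mp this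
        apply hp
        funext j
        fin_cases j
        · exact h0
        · exact e1
        · exact e2
      have h2 : Real.log ‖σ i (gel π ε1 ε2 p)‖ =
          Real.log ‖σ i (((ε1 ^ (p 1) * ε2 ^ (p 2) : (𝓞 K)ˣ) : 𝓞 K) : K)‖ := by
        rw [gra_log (σ i) π hπ, h0]
        simp
      have h3 := (gra_le σ π ε1 ε2 A hA lam p).2 i
      rw [h2] at h3
      nlinarith
    · refine le_trans (min_le_left _ _) ?_
      refine le_trans ?_ (gra_le σ π ε1 ε2 A hA lam p).1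
      have h1 : 1 ≤ |p 0| := Int.one_le_abs h0
      exact_mod_cast h1
  · intro p
    obtain ⟨h1, h2⟩ := gra_le σ π ε1 ε2 A hA lam p
    have hN : 0 ≤ nrm σ π ε1 ε2 A lam p := le_trans (abs_nonneg _) h1
    have hc1 : 0 < 1 / c := by positivity
    have hSN : 0 ≤ S * nrm σ π ε1 ε2 A lam p := mul_nonneg hS0 hN
    have hmax : max |(p 1 : ℝ)| |(p 2 : ℝ)| ≤ (1 / c) * ((1 + S) * nrm σ π ε1 ε2 A lam p) := by
      obtain ⟨i, hi⟩ := hUR2 (p 1) (p 2)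
      have h3 := gra_log (σ i) π hπ ε1 ε2 p
      have h4 : |Real.log ‖σ i (((ε1 ^ (p 1) * ε2 ^ (p 2) : (𝓞 K)ˣ) : 𝓞 K) : K)‖| ≤
          |Real.log ‖σ i (gel π ε1 ε2 p)‖| + |(p 0 : ℝ)| * |Real.log ‖σ i (π : K)‖| := by
        have e : Real.log ‖σ i (((ε1 ^ (p 1) * ε2 ^ (p 2) : (𝓞 K)ˣ) : 𝓞 K) : K)‖ =
            Real.log ‖σ i (gel π ε1 ε2 p)‖ - (p 0 : ℝ) * Real.log ‖σ i (π : K)‖ := by
          rw [h3]
          ring
        rw [e, ← abs_mul]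
        exact abs_sub _ _
      have h5 : |(p 0 : ℝ)| * |Real.log ‖σ i (π : K)‖| ≤ nrm σ π ε1 ε2 A lam p * S :=
        mul_le_mul h1 (hS i) (abs_nonneg _) hN
      have h6 := h2 i
      have h7 : c * max |(p 1 : ℝ)| |(p 2 : ℝ)| ≤ (1 + S) * nrm σ π ε1 ε2 A lam p := by
        nlinarith
      rw [one_div, inv_mul_eq_div, le_div_iff₀ hc]
      linarith
    have hmain : ∀ x : ℝ, (x ≤ nrm σ π ε1 ε2 A lam p ∨
        x ≤ (1 / c) * ((1 + S) * nrm σ π ε1 ε2 A lam p)) →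
        x ≤ (1 + 1 / c) * (1 + S) * nrm σ π ε1 ε2 A lam p := by
      intro x hx
      have e : (1 + 1 / c) * (1 + S) * nrm σ π ε1 ε2 A lam p =
        (nrm σ π ε1 ε2 A lam p + S * nrm σ π ε1 ε2 A lam p) +
          (1 / c) * ((1 + S) * nrm σ π ε1 ε2 A lam p) := by ring
      have h8 : 0 ≤ (1 / c) * ((1 + S) * nrm σ π ε1 ε2 A lam p) := by positivity
      rw [e]
      rcases hx with hx | hx <;> linarith
    intro i
    fin_cases i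
    · exact hmain _ (Or.inl h1)
    · exact hmain _ (Or.inr (le_trans (le_max_left _ _) hmax))
    · exact hmain _ (Or.inr (le_trans (le_max_right _ _) hmax))
  · intro ρ hρ
    refine gra_count _ ρ hρ ?_ ?_
    · rintro p ⟨hp, -⟩
      exact (gra_le σ π ε1 ε2 A hA lam p).1.trans hp
    · rintro p ⟨-, hp⟩ q ⟨-, hq⟩ hpq
      have h12 : σ 1 ≠ σ 2 := fun h => absurd (hσ h) (by decide)
      have hker := (hKER K hK (σ 1) (σ 2) h12).2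
        (ε1 ^ (p 1 - q 1) * ε2 ^ (p 2 - q 2))
      have hu : (ε1 ^ (p 1 - q 1) * ε2 ^ (p 2 - q 2) : (𝓞 K)ˣ) =
          (ε1 ^ (p 1) * ε2 ^ (p 2)) / (ε1 ^ (q 1) * ε2 ^ (q 2)) := by
        rw [zpow_sub, zpow_sub, div_eq_mul_inv, mul_inv]
        ac_rfl
      have huK : (((ε1 ^ (p 1 - q 1) * ε2 ^ (p 2 - q 2) : (𝓞 K)ˣ) : 𝓞 K) : K) =
          (((ε1 ^ (p 1) * ε2 ^ (p 2) : (𝓞 K)ˣ) : 𝓞 K) : K) /
            (((ε1 ^ (q 1) * ε2 ^ (q 2) : (𝓞 K)ˣ) : 𝓞 K) : K) := by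
        have hne := NumberField.Units.coe_ne_zero (ε1 ^ (q 1) * ε2 ^ (q 2))
        rw [eq_div_iff hne, ← NumberField.Units.coe_mul, hu, div_mul_cancel]
      rw [gra_gel, map_mul, map_mul, map_zpow₀, map_zpow₀] at hp hq
      rw [← hpq] at hq
      set a := σ 1 (π : K) ^ (p 0) with ha
      set b := σ 2 (π : K) ^ (p 0) with hb
      have ha0 : a ≠ 0 := zpow_ne_zero _ (gra_pi (σ 1) π hπ)
      have hb0 : b ≠ 0 := zpow_ne_zero _ (gra_pi (σ 2) π hπ)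
      have hθ0 : θ ^ (p 0) ≠ 0 := zpow_ne_zero _ hθ
      have x1 := gra_ne (σ 1) (ε1 ^ (p 1) * ε2 ^ (p 2))
      have x2 := gra_ne (σ 2) (ε1 ^ (p 1) * ε2 ^ (p 2))
      have y1 := gra_ne (σ 1) (ε1 ^ (q 1) * ε2 ^ (q 2))
      have y2 := gra_ne (σ 2) (ε1 ^ (q 1) * ε2 ^ (q 2))
      have hone : (σ 1 (((ε1 ^ (p 1 - q 1) * ε2 ^ (p 2 - q 2) : (𝓞 K)ˣ) : 𝓞 K) : K) /
          σ 2 (((ε1 ^ (p 1 - q 1) * ε2 ^ (p 2 - q 2) : (𝓞 K)ˣ) : 𝓞 K) : K)) ^ 2 = 1 := by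
        rw [huK, map_div₀, map_div₀]
        set P1 := σ 1 (((ε1 ^ (p 1) * ε2 ^ (p 2) : (𝓞 K)ˣ) : 𝓞 K) : K)
        set P2 := σ 2 (((ε1 ^ (p 1) * ε2 ^ (p 2) : (𝓞 K)ˣ) : 𝓞 K) : K)
        set Q1 := σ 1 (((ε1 ^ (q 1) * ε2 ^ (q 2) : (𝓞 K)ˣ) : 𝓞 K) : K)
        set Q2 := σ 2 (((ε1 ^ (q 1) * ε2 ^ (q 2) : (𝓞 K)ˣ) : 𝓞 K) : K)
        have e : (P1 / Q1 / (P2 / Q2)) ^ 2 =
            (θ ^ (p 0) * (a * P1 / (b * P2))) ^ 2 / (θ ^ (p 0) * (a * Q1 / (b * Q2))) ^ 2 := by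
          field_simp
        rw [e, hp, hq, div_one]
      have hlog : ∀ τ : K →+* ℂ,
          Real.log ‖τ (((ε1 ^ (p 1 - q 1) * ε2 ^ (p 2 - q 2) : (𝓞 K)ˣ) : 𝓞 K) : K)‖ = 0 := by
        intro τ
        rcases hker hone with h | h
        · rw [h]
          simp
        · rw [h]
          simp
      obtain ⟨i, hi⟩ := hUR2 (p 1 - q 1) (p 2 - q 2)
      rw [hlog, abs_zero] at hi
      have hmax : max |((p 1 - q 1 : ℤ) : ℝ)| |((p 2 - q 2 : ℤ) : ℝ)| ≤ 0 := by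
        by_contra hcon
        push Not at hcon
        have := mul_pos hc hcon
        linarith
      rw [max_le_iff] at hmax
      have e1 : p 1 - q 1 = 0 := by
        have h1 := abs_nonpos_iff.mp hmax.1
        exact_mod_cast h1
      have e2 : p 2 - q 2 = 0 := by
        have h1 := abs_nonpos_iff.mp hmax.2
        exact_mod_cast h1
      funext j
      fin_cases j
      · exact hpq
      · show p 1 = q 1
        linarith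
      · show p 2 = q 2
        linarith

end Pool.Helper99.BK
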